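import Mathlib
import Pool.Agent.H.MP_8f0c89_nt.Main

namespace Pool.Agent.Results.MP_d025d0_nt.SmallDivisorPart

/-- the terms `a_i ≤ t`, `i ≥ 1`, of the greedy sequence attached to `n` -/
def terms (n : ℕ) : ℕ → Finset ℕ
  | 0 => ∅
  | t + 1 =>
      if ∀ b ∈ terms n t, Nat.Coprime (n - (t + 1)) (n - b)
      then insert (t + 1) (terms n t) else terms n t

open Classical in
/-- `S_1(n)` -/
noncomputable def S1 (n : ℕ) : ℝ :=
  ∑ a ∈ (terms n (n - 1)).filter (fun a => ∃ p : ℕ, p.Prime ∧ p ≤ a ∧ p ∣ n - a), (1 : ℝ) / (a : ℝ)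

lemma terms_eq (n t : ℕ) : terms n t = N435e839e.greedyPrefix false n t := by
  induction t with
  | zero => simp [terms, N435e839e.greedyPrefix]
  | succ t ih =>
    rcases Nat.eq_zero_or_pos t with rfl | ht
    · simp [terms, N435e839e.greedyPrefix]
    · simp only [terms, N435e839e.greedyPrefix, ih]
      have : t + 1 ≠ 1 := by omega
      simp only [this, false_or]

lemma terms_pos (n t : ℕ) : ∀ a ∈ terms n t, 0 < a := by
  induction t with
  | zero => simp [terms]
  | succ t ih =>
    intro a ha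
    simp only [terms] at ha
    split_ifs at ha
    · rcases Finset.mem_insert.1 ha with h | h
      · omega
      · exact ih a h
    · exact ih a ha

lemma S1_eq (n : ℕ) : S1 n = N435e839e.properSum false n := by
  classical
  unfold S1 N435e839e.properSum N435e839e.selected
  apply Finset.sum_congr _ (fun _ _ => rfl)
  ext a
  simp only [Finset.mem_filter, N435e839e.Proper, ← terms_eq]
  constructor
  · rintro ⟨h1, h2⟩
    have h3 := terms_pos n _ a h1
    have h4 := Pool.Agent.H.MP_8f0c89_nt.greedy_le false n (n - 1) a (by rwa [← terms_eq])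
    exact ⟨⟨h1, h3, by omega⟩, h2⟩
  · rintro ⟨⟨h1, _⟩, h2⟩
    exact ⟨h1, h2⟩

theorem result : ∃ C : ℝ, ∀ N : ℕ, ∃ n : ℕ, N ≤ n ∧ S1 n ≤ C := by
  have h := Pool.Agent.H.MP_8f0c89_nt.not_tendsto false
  by_contra hc
  push Not at hc
  apply h
  rw [Filter.tendsto_atTop_atTop]
  intro C
  obtain ⟨N, hN⟩ := hc C
  exact ⟨N, fun n hn => by rw [← S1_eq]; exact (hN n hn).le⟩

end Pool.Agent.Results.MP_d025d0_nt.SmallDivisorPart
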